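import Pool.Agent.Run7.h944.BS.B9
import Pool.Agent.TH668.Gen.D

/-!
# Multiplicative functions with Beatty signs at the primes

`f_α n = g n * ∏_{p ^ k ‖ n} ((-1) ^ ⌊a_p α + b_p⌋) ^ k` for a real parameter `α`: almost every `α`.

`bern`: the law of independent fair signs on `ℤ → ℝ` (`Pool.Agent.W257.FS.F`); `IsFurst f μ`
(`Pool.Agent.W257.FS.G`): the probability measure `μ` is a Furstenberg system of `f`, that is, a weak
limit of the logarithmic averages of the shifts of `f` along some sequence tending to infinity.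
-/

set_option autoImplicit false

namespace Pool.Agent.Results.MP_4a7640_nt.BeattySigns

open Finset MeasureTheory Filter
open Pool.Agent.W257.FS (SignMul IsFurst bern)

/-- multiplicative functions with values `1` and `-1` -/
def MulSign (f : ℕ → ℝ) : Prop :=
  (∀ n, f n = 1 ∨ f n = -1) ∧ ∀ m n : ℕ, Nat.Coprime m n → f (m * n) = f m * f n

/-- infinite distance to every Dirichlet character -/
def Aperiodic (f : ℕ → ℝ) : Prop := ∀ (q : ℕ), 1 ≤ q → ∀ χ : DirichletCharacter ℂ q,
  Tendsto (fun X : ℕ => ∑ p ∈ (Icc 1 X).filter Nat.Prime,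
    (1 - ((f p : ℂ) * starRingEnd ℂ (χ (p : ZMod q))).re) / p) atTop atTop

/-- the Beatty sign -/
noncomputable def beatty (a b α : ℝ) : ℝ := (-1 : ℝ) ^ ⌊a * α + b⌋

/-- polynomial growth of the frequencies along the primes: `a q ≥ c (q / p) ^ θ a p` for `p < q` -/
def Growing (a : ℕ → ℝ) : Prop :=
  (∀ p : ℕ, p.Prime → 0 < a p) ∧ ∃ c θ : ℝ, 0 < c ∧ 0 < θ ∧
    ∀ p q : ℕ, p.Prime → q.Prime → p < q → c * ((q : ℝ) / p) ^ θ * a p ≤ a q

/-- `g` with the sign changes `s p` at the primes: `n = ∏ p ^ k` goes to `g n * ∏ (s p) ^ k` -/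
noncomputable def change (g s : ℕ → ℝ) (n : ℕ) : ℝ := g n * n.factorization.prod (fun p k => s p ^ k)

/-- the powers `p ^ κ`, `κ > 0`, grow; and for growing frequencies almost every parameter gives a
multiplicative function which is aperiodic, whose only Furstenberg system is the Bernoulli system and
whose sign patterns have the random logarithmic densities -/
theorem result : (∀ κ : ℝ, 0 < κ → Growing fun p => (p : ℝ) ^ κ) ∧
    ∀ a : ℕ → ℝ, Growing a → ∀ (b g : ℕ → ℝ), MulSign g →
    ∀ᵐ α : ℝ, MulSign (change g fun p => beatty (a p) (b p) α) ∧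
      Aperiodic (change g fun p => beatty (a p) (b p) α) ∧
      (∀ μ : Measure (ℤ → ℝ), IsFurst (change g fun p => beatty (a p) (b p) α) μ ↔ μ = bern) ∧
      ∀ (H : Finset ℕ) (σ : ℕ → ℝ), (∀ h, σ h = 1 ∨ σ h = -1) →
        Tendsto (fun N : ℕ => (∑ n ∈ (Icc 1 N).filter
          (fun n => ∀ h ∈ H, change g (fun p => beatty (a p) (b p) α) (n + h) = σ h), (1 : ℝ) / n) /
            Real.log N) atTop (nhds ((1 / 2) ^ H.card)) := by
  classical
  constructor
  · intro κ hκ
    refine ⟨fun p hp => Real.rpow_pos_of_pos (by exact_mod_cast hp.pos) κ, 1, κ, one_pos, hκ, ?_⟩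
    intro p q hp hq _
    have hp0 : (0 : ℝ) < p := by exact_mod_cast hp.pos
    have hq0 : (0 : ℝ) ≤ q := Nat.cast_nonneg _
    rw [one_mul, Real.div_rpow hq0 hp0.le, div_mul_cancel₀]
    exact (Real.rpow_pos_of_pos hp0 κ).ne'
  intro a ha b g hg
  have hgrow : Run7.h944.BS.Grow a := ha
  have hgabs : ∀ n, |g n| = 1 := by
    intro n
    rcases hg.1 n with h | h <;> rw [h] <;> simp
  have he : ∀ (p : ℕ) (α : ℝ), beatty (a p) (b p) α = 1 ∨ beatty (a p) (b p) α = -1 := fun p α =>
    Run7.h944.BS.fs_or (a p) (b p) α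
  have hm : ∀ p, Measurable (fun α => beatty (a p) (b p) α) := fun p =>
    Run7.h944.BS.fs_meas (a p) (b p)
  have hcor : ∀ᵐ α : ℝ, ∀ A : Finset ℕ, A.Nonempty → Tendsto (fun X : ℕ =>
      (∑ n ∈ Icc 1 X, (∏ h ∈ A, change g (fun p => beatty (a p) (b p) α) (n + h)) / n) /
        Real.log X) atTop (nhds 0) := by
    rw [ae_all_iff]
    intro A
    by_cases hA : A.Nonempty
    swap
    · exact Eventually.of_forall fun α h => absurd h hA
    have h1 := Run7.h944.BS.main_fs hgrow b hA (fun n => ∏ h ∈ A, g (n + h)) (fun n => by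
      rw [abs_prod]
      exact (prod_eq_one fun h _ => hgabs (n + h)).le)
    filter_upwards [h1] with α hα _
    refine hα.congr fun X => ?_
    congr 1
    apply sum_congr rfl
    intro n _
    congr 1
    unfold Run7.h944.BS.WH
    rw [← prod_mul_distrib]
    rfl
  have hap : ∀ᵐ α : ℝ, Aperiodic (change g fun p => beatty (a p) (b p) α) := by
    unfold Aperiodic
    rw [ae_all_iff]
    intro q
    by_cases hq : 1 ≤ q
    swap
    · exact Eventually.of_forall fun α h => absurd h hq
    have : NeZero q := ⟨by omega⟩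
    have h2 : ∀ᵐ α : ℝ, ∀ χ : DirichletCharacter ℂ q,
        Tendsto (fun X : ℕ => ∑ p ∈ (Icc 1 X).filter Nat.Prime,
          (1 - ((change g (fun p => beatty (a p) (b p) α) p : ℂ) *
            starRingEnd ℂ (χ (p : ZMod q))).re) / p) atTop atTop := by
      rw [ae_all_iff]
      intro χ
      apply Run7.h944.BS.ae_of_PI
      intro j
      have h3 := Run7.h944.BS.dist2 (P := Run7.h944.BS.PI (j : ℝ)) hm he
        (Run7.h944.BS.dc_fs hgrow b j) (fun p => g p * (χ (p : ZMod q)).re) (fun p => by
          rw [abs_mul, hgabs, one_mul]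
          exact (Complex.abs_re_le_norm _).trans (χ.norm_le_one _))
      filter_upwards [h3] with α hα
      refine hα.congr fun X => ?_
      apply sum_congr rfl
      intro p hp
      have hpp : p.Prime := (mem_filter.1 hp).2
      have h4 : change g (fun p => beatty (a p) (b p) α) p = g p * beatty (a p) (b p) α := by
        have h5 : (Finsupp.single p 1).prod (fun p k => (fun p => beatty (a p) (b p) α) p ^ k) =
            beatty (a p) (b p) α := by
          rw [Finsupp.prod_single_index]
          · exact pow_one _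
          · exact pow_zero _
        unfold change
        rw [hpp.factorization, h5]
      rw [h4]
      congr 1
      simp only [Complex.mul_re, Complex.ofReal_re, Complex.ofReal_im, zero_mul, sub_zero,
        Complex.conj_re]
      ring
    filter_upwards [h2] with α hα _
    exact hα
  filter_upwards [hcor, hap] with α h1 h2
  have hg1 : g 1 = 1 := by
    have h6 := hg.2 1 1 (Nat.coprime_one_left 1)
    rw [mul_one] at h6
    rcases hg.1 1 with h | h
    · exact h
    · rw [h] at h6; norm_num at h6
  have hms : MulSign (change g fun p => beatty (a p) (b p) α) := by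
    constructor
    · intro n
      have h3 : |change g (fun p => beatty (a p) (b p) α) n| = 1 := by
        unfold change
        rw [abs_mul, hgabs, one_mul]
        exact Pool.Agent.W136.RF.cm_abs (fun p => he p α) n
      rcases abs_eq (zero_le_one) |>.1 h3 with h | h
      · exact Or.inl h
      · exact Or.inr h
    · intro m n hmn
      rcases Nat.eq_zero_or_pos m with rfl | hm0
      · rw [Nat.coprime_zero_left] at hmn
        subst hmn
        unfold change
        simp [hg1]
      rcases Nat.eq_zero_or_pos n with rfl | hn0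
      · rw [Nat.coprime_zero_right] at hmn
        subst hmn
        unfold change
        simp [hg1]
      have h7 := Pool.Agent.W136.RF.cm_mul (fun p => beatty (a p) (b p) α) hm0.ne' hn0.ne'
      unfold Pool.Agent.W136.RF.cm at h7
      unfold change
      rw [h7, hg.2 m n hmn]
      ring
  have hsm : SignMul (change g fun p => beatty (a p) (b p) α) := by
    refine ⟨?_, hms.2, fun n _ => hms.1 n⟩
    unfold change
    simp [hg1]
  exact ⟨hms, h2, fun μ => Pool.Agent.TH668.Gen.furst_of_corr hsm hms.1 h1 μ,
    fun H σ hσ => Pool.Agent.W136.RF.pattern _ hms.1 h1 H σ hσ⟩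

end Pool.Agent.Results.MP_4a7640_nt.BeattySigns
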