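import Pool.Agent.Run7.h504.RM4
import Pool.Agent.Run7.h504.RM5

/-!
# Aperiodic multiplicative functions with values `1` and `-1` at points displaced by the members of arbitrary families of
nearly minimal additive energy

Used from the starting files: the correlations of one form `q n + d` (`MP_a001d7_nt.JointClusters`), the criterion of
Daboussi and Katai (`W24.Katai`), the bilinear estimate for families of shifts (`TH823.EL.FamU`, `TH823.PS`) and the
additive energy of polynomial values (`H373R2.T7.energy_poly`).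
-/

set_option autoImplicit false

namespace Pool.Agent.Results.MP_4a7640_nt.LowEnergyFamilies

open Finset

/-- Multiplicative functions with values `1` and `-1` (the value at `0` is arbitrary). -/
def IsMultSign (f : ℕ → ℝ) : Prop :=
  (∀ n, f n = 1 ∨ f n = -1) ∧ ∀ m n : ℕ, m.Coprime n → f (m * n) = f m * f n

/-- `f` is aperiodic: `𝔻(f, χ) = ∞` for every Dirichlet character `χ`. -/
def Aperiodic (f : ℕ → ℝ) : Prop :=
  ∀ (q : ℕ) (χ : DirichletCharacter ℂ q), 1 ≤ q →
    ¬ Summable fun p : Nat.Primes =>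
      (1 - (((f p : ℝ) : ℂ) * (starRingEnd ℂ) (χ ((p : ℕ) : ZMod q))).re) / ((p : ℕ) : ℝ)

/-- The sequence `x_f` of the problem: `f(z)` for `z ≥ 1`, zero for `z ≤ 0`. -/
noncomputable def ext (f : ℕ → ℝ) (z : ℤ) : ℝ := if 1 ≤ z then f z.toNat else 0

/-- The additive energy of order `p` of the family `a 1, ..., a x`: the number of the solutions of
`a (u 1) + ... + a (u p) = a (v 1) + ... + a (v p)`. -/
def energy (p x : ℕ) (a : ℕ → ℤ) : ℕ :=
  (((Fintype.piFinset fun _ : Fin p => Icc 1 x) ×ˢ (Fintype.piFinset fun _ : Fin p => Icc 1 x)).filter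
    (fun q => ∑ i, a (q.1 i) = ∑ i, a (q.2 i))).card

/-- The number of the representations `n = a (u 1) + ... + a (u p)`, `1 ≤ u i ≤ x`. -/
def reps (p x : ℕ) (a : ℕ → ℤ) (n : ℤ) : ℕ :=
  ((Fintype.piFinset fun _ : Fin p => Icc 1 x).filter fun u => ∑ i, a (u i) = n).card

/-- The integers `a 1, ..., a x` are at most `B N` in absolute value, and their additive energy of some order `p ≤ h`
is at most `C x ^ (2 p) / N`. -/
def Spread (h B : ℕ) (C : ℝ) (N x : ℕ) (a : ℕ → ℤ) : Prop :=
  (∀ m ∈ Icc 1 x, |a m| ≤ B * N) ∧ ∃ p : ℕ, 1 ≤ p ∧ p ≤ h ∧ (energy p x a : ℝ) * N ≤ C * (x : ℝ) ^ (2 * p)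

open Classical in
/-- The number of the vectors `m` with `1 ≤ m i ≤ x i` for all `i` which have the property `E`. -/
noncomputable def num {k : ℕ} (x : Fin k → ℕ) (E : (Fin k → ℕ) → Prop) : ℝ :=
  (((Fintype.piFinset fun i => Icc 1 (x i)).filter E).card : ℝ)

open Classical in
/-- The number of the integers `n` with `Y < n ≤ X` which have the property `E`. -/
noncomputable def freq (Y X : ℕ) (E : ℕ → Prop) : ℝ := (((Ioc Y X).filter E).card : ℝ)

/-- With the constants `a i`, the sums of the products of an arbitrary bounded weight `w l` and of the values of `f` at the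
forms `α i n + a i`, `i ∈ I`, are at most `ε N`, for all weights `w l`, all nonempty sets `I` of indices and all lengths. -/
def SmallSums (f : ℕ → ℝ) (B : ℕ) (ε : ℝ) (N : ℕ) {k W : ℕ} (α : Fin k → ℕ) (w : Fin W → ℕ → ℂ) (a : Fin k → ℤ) : Prop :=
  ∀ l, ∀ I : Finset (Fin k), ∀ X : ℕ, (∃ i ∈ I, α i * X ≤ B * N) →
    ‖∑ n ∈ Icc 1 X, w l n * ∏ i ∈ I, ((ext f (α i * n + a i) : ℝ) : ℂ)‖ ≤ ε * N

/-- With the constants `a i`, every pattern `σ` of signs occurs for the proportion `1 / 2 ^ k` of the elements of every set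
`A l`, up to an error of at most `ε N`, in all intervals `(Y, X]` in which all the forms are positive. -/
def Equidistributed (f : ℕ → ℝ) (B : ℕ) (ε : ℝ) (N : ℕ) {k W : ℕ} (α : Fin k → ℕ) (A : Fin W → Set ℕ) (a : Fin k → ℤ) :
    Prop :=
  ∀ l, ∀ σ : Fin k → ℝ, (∀ i, σ i = 1 ∨ σ i = -1) → ∀ Y X : ℕ, Y ≤ X → (∀ i, α i * X ≤ B * N) →
    (∀ i, 0 ≤ α i * (Y : ℤ) + a i) →
    |freq Y X (fun n => n ∈ A l ∧ ∀ i, ext f (α i * n + a i) = σ i) - freq Y X (fun n => n ∈ A l) / 2 ^ k| ≤ ε * N

lemma energy_eq (p x : ℕ) (a : ℕ → ℤ) : energy p x a = Pool.Agent.H373R2.T7.energy p x a := rfl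

lemma energy_le (p x : ℕ) (a : ℕ → ℤ) (R : ℝ) (hR : ∀ n, (reps p x a n : ℝ) ≤ R) :
    (energy p x a : ℝ) ≤ (x : ℝ) ^ p * R := by
  classical
  set P := Fintype.piFinset fun _ : Fin p => Icc 1 x with hP
  have hcard : (P.card : ℝ) = (x : ℝ) ^ p := by
    rw [hP, Fintype.card_piFinset_const, Nat.card_Icc, Nat.add_sub_cancel]
    push_cast
    rfl
  have h1 : energy p x a = ∑ u ∈ P, reps p x a (∑ i, a (u i)) := by
    unfold energy
    rw [card_filter, sum_product]
    apply sum_congr rfl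
    intro u _
    unfold reps
    rw [card_filter]
    apply sum_congr rfl
    intro v _
    by_cases h : ∑ i, a (u i) = ∑ i, a (v i)
    · rw [if_pos h, if_pos h.symm]
    · rw [if_neg h, if_neg (fun h' => h h'.symm)]
  rw [h1]
  push_cast
  calc ∑ u ∈ P, (reps p x a (∑ i, a (u i)) : ℝ) ≤ ∑ _u ∈ P, R := sum_le_sum fun u _ => hR _
    _ = (x : ℝ) ^ p * R := by rw [sum_const, nsmul_eq_mul, hcard]

lemma ext_exI (f : ℕ → ℝ) (z : ℤ) :
    ((ext f z : ℝ) : ℂ) = Pool.Agent.H373R2.T7.exI (fun n => ((f n : ℝ) : ℂ)) z := by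
  unfold ext Pool.Agent.H373R2.T7.exI
  split_ifs
  · rfl
  · exact Complex.ofReal_zero

lemma sup_f {f : ℕ → ℝ} (hf : IsMultSign f) (ha : Aperiodic f) :
    Pool.Agent.Run7.h504.RM.Sup (fun n => ((f n : ℝ) : ℂ)) := by
  have hn : ∀ n, ‖((f n : ℝ) : ℂ)‖ ≤ 1 := by
    intro n
    rcases hf.1 n with h | h <;> rw [h] <;> simp
  have hm : ∀ m n : ℕ, m.Coprime n → ((f (m * n) : ℝ) : ℂ) = ((f m : ℝ) : ℂ) * ((f n : ℝ) : ℂ) := by
    intro m n h
    rw [hf.2 m n h]
    push_cast
    rfl
  intro ε hε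
  refine Pool.Agent.Run7.h504.RM.sup_small (f := fun n => ((f n : ℝ) : ℂ)) ⟨hn, hm⟩ ?_ ε hε
  refine Pool.Agent.Run7.h504.RM.zeroAP_of _ ⟨hn, hm⟩ (Or.inr ⟨?_, ha⟩)
  refine Set.Finite.subset (s := {1, -1}) (by simp) ?_
  rintro _ ⟨p, _, rfl⟩
  rcases hf.1 p with h | h
  · left; simp [h]
  · right; simp [h]

/-- Let `f` be an aperiodic multiplicative function with values `1` and `-1`. Let `h`, `B`, `C`, `k`, `W` and `ε > 0` be
fixed and let `N` be large. Let `s i 1, ..., s i (x i)` (`i < k`) be ARBITRARY families of integers up to `B N`, each of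
which has an additive energy of some order `p ≤ h` of at most `C x ^ (2 p) / N`, where `x` is the length of the family, and
let `α i ≥ 1` be arbitrary.
(1) Let `w 1, ..., w W` be arbitrary complex weights of modulus at most one. For all the vectors `m` with
`1 ≤ m i ≤ x i` up to a proportion of `ε` of them, `|∑ n ≤ X, w l (n) ∏ i ∈ I, f (α i n + s i (m i))| ≤ ε N` for all `l`,
all nonempty sets `I` of indices and all `X` with `α i X ≤ B N` for some `i ∈ I`.
(2) Let `A 1, ..., A W` be arbitrary sets of natural numbers, for instance sets defined by the values of `f` itself near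
`n`. For all the vectors `m` up to a proportion of `ε` of them, every one of the `2 ^ k` patterns of signs occurs for the
proportion `1 / 2 ^ k` of the `n ∈ A l` among the vectors `f (α i n + s i (m i))`, `i < k`, up to an error of at most
`ε N`, for all `l` and all intervals in which the forms are positive.
(3) The condition on the energy holds if, for some `1 ≤ p ≤ h`, no integer has more than `C x ^ p / N` representations as a
sum of `p` members of the family; and it holds for the values at `1, ..., x` of every nonconstant polynomial `g` with a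
positive leading coefficient, for some `h`, `B` and `C`, whenever `x ^ deg g` has the order of magnitude of `N`. -/
theorem result (f : ℕ → ℝ) (hf : IsMultSign f) (ha : Aperiodic f) (h B k W : ℕ) (C ε : ℝ) (hε : 0 < ε) :
    (∃ N₀ : ℕ, ∀ N : ℕ, N₀ ≤ N → ∀ (x : Fin k → ℕ) (s : Fin k → ℕ → ℤ), (∀ i, Spread h B C N (x i) (s i)) →
      ∀ α : Fin k → ℕ, (∀ i, 1 ≤ α i) →
      (∀ w : Fin W → ℕ → ℂ, (∀ l n, ‖w l n‖ ≤ 1) →
        num x (fun m => ¬ SmallSums f B ε N α w (fun i => s i (m i))) ≤ ε * ∏ i, (x i : ℝ)) ∧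
      (∀ A : Fin W → Set ℕ,
        num x (fun m => ¬ Equidistributed f B ε N α A (fun i => s i (m i))) ≤ ε * ∏ i, (x i : ℝ))) ∧
    (∀ (N x p : ℕ) (a : ℕ → ℤ), 1 ≤ N → 1 ≤ p → p ≤ h → (∀ m ∈ Icc 1 x, |a m| ≤ B * N) →
      (∀ n, (reps p x a n : ℝ) * N ≤ C * (x : ℝ) ^ p) → Spread h B C N x a) ∧
    (∀ g : Polynomial ℤ, 1 ≤ g.natDegree → 0 < g.leadingCoeff → ∀ D : ℕ, ∃ (h' B' : ℕ) (C' : ℝ), ∀ N x : ℕ,
      N ≤ D * x ^ g.natDegree → x ^ g.natDegree ≤ D * N → Spread h' B' C' N x (fun m => g.eval (m : ℤ))) := by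
  classical
  have hn : ∀ n, ‖((f n : ℝ) : ℂ)‖ ≤ 1 := by
    intro n
    rcases hf.1 n with h | h <;> rw [h] <;> simp
  refine ⟨?_, fun N x p a hN hp1 hp2 ha hr => ⟨ha, p, hp1, hp2, ?_⟩, fun g hd hl D => ?_⟩
  · obtain ⟨N₀, h0⟩ := Pool.Agent.Run7.h504.RM.tup (h + 1) B W k (by omega) C (min ε (ε / 2)) (by positivity)
      (fun _ n => ((f n : ℝ) : ℂ)) (fun _ => hn) univ (fun _ _ => sup_f hf ha)
    refine ⟨N₀, fun N hN x s hs α hα => ?_⟩
    have hmin1 : min ε (ε / 2) ≤ ε := min_le_left _ _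
    have hmin2 : min ε (ε / 2) ≤ ε / 2 := min_le_right _ _
    have hN0 : (0 : ℝ) ≤ N := Nat.cast_nonneg _
    have hX : 0 ≤ ∏ i, (x i : ℝ) := prod_nonneg fun _ _ => Nat.cast_nonneg _
    have h1 := fun w hw => h0 N hN x s (fun i _ => ⟨(hs i).1, by
      obtain ⟨p, _, hp2, he⟩ := (hs i).2
      exact Pool.Agent.Run7.h504.RM.energy_order (by omega) he⟩) α (fun i _ => hα i) w hw
    have h2 : ∀ w : Fin W → ℕ → ℂ, (∀ l n, ‖w l n‖ ≤ 1) →
        num x (fun m => ¬ SmallSums f B (ε / 2) N α w (fun i => s i (m i))) ≤ ε * ∏ i, (x i : ℝ) := by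
      intro w hw
      refine le_trans ?_ ((h1 w hw).trans (mul_le_mul_of_nonneg_right hmin1 hX))
      refine Pool.Agent.Run7.h504.RM.ct_mono fun m _ hm hcon => hm ?_
      rintro l I X ⟨i, hi, hX⟩
      have h3 := hcon l I i hi (mem_univ i) X hX
      refine le_trans (le_of_eq ?_) (h3.trans (mul_le_mul_of_nonneg_right hmin2 hN0))
      congr 1
      apply sum_congr rfl
      intro n _
      congr 1
      apply prod_congr rfl
      intro j _
      exact ext_exI f _
    refine ⟨fun w hw => ?_, fun A => ?_⟩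
    · refine le_trans ?_ (h2 w hw)
      refine Pool.Agent.Run7.h504.RM.ct_mono fun m _ hm hcon => hm ?_
      rintro l I X hI
      refine (hcon l I X hI).trans (mul_le_mul_of_nonneg_right (by linarith) hN0)
    · have hw : ∀ (l : Fin W) (n : ℕ), ‖(((A l).indicator (1 : ℕ → ℝ) n : ℝ) : ℂ)‖ ≤ 1 := by
        intro l n
        rw [Complex.norm_real]
        by_cases hA : n ∈ A l
        · rw [Set.indicator_of_mem hA]; simp
        · rw [Set.indicator_of_notMem hA]; simp
      refine le_trans ?_ (h2 (fun l n => (((A l).indicator (1 : ℕ → ℝ) n : ℝ) : ℂ)) hw)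
      refine Pool.Agent.Run7.h504.RM.ct_mono fun m _ hm hcon => hm ?_
      intro l σ hσ Y X hYX hαX hpos
      have h4 := Pool.Agent.Run7.h504.RM.pattern univ (fun i n => ext f (α i * n + s i (m i))) (A l) Y X hYX
        (fun i n hn => by
          have hn1 := (mem_Ioc.1 hn).1
          have hle : (1 : ℤ) ≤ α i * (n : ℤ) + s i (m i) := by
            have h5 : (α i : ℤ) * ((Y : ℤ) + 1) ≤ α i * (n : ℤ) :=
              mul_le_mul_of_nonneg_left (by exact_mod_cast hn1) (by positivity)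
            have h6 : (1 : ℤ) ≤ α i := by exact_mod_cast hα i
            have h7 := hpos i
            rw [mul_add, mul_one] at h5
            linarith
          unfold ext
          rw [if_pos hle]
          exact hf.1 _) (ε / 2 * N) (by positivity) (by
        rintro I ⟨i, hi, -⟩ Z hZ
        have h5 := hcon l I Z ⟨i, hi, (Nat.mul_le_mul_left _ hZ).trans (hαX i)⟩
        refine le_trans (le_of_eq ?_) h5
        rw [← Real.norm_eq_abs, ← Complex.norm_real]
        congr 1
        push_cast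
        rfl) σ hσ
      have e1 : freq Y X (fun n => n ∈ A l ∧ ∀ i, ext f (α i * n + s i (m i)) = σ i) =
          Pool.Agent.Run7.h504.RM.ct (Ioc Y X) (fun n => n ∈ A l ∧ ∀ i, ext f (α i * n + s i (m i)) = σ i) := rfl
      have e2 : freq Y X (fun n => n ∈ A l) = Pool.Agent.Run7.h504.RM.ct (Ioc Y X)
          (fun n => n ∈ A l ∧ ∀ i, i ∉ (univ : Finset (Fin k)) → ext f (α i * n + s i (m i)) = σ i) := by
        have e3 : (fun n => n ∈ A l ∧ ∀ i, i ∉ (univ : Finset (Fin k)) → ext f (α i * n + s i (m i)) = σ i) =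
            fun n => n ∈ A l := by
          funext n
          simp
        rw [e3]
        rfl
      rw [e1, e2]
      rw [card_univ, Fintype.card_fin] at h4
      refine h4.trans (le_of_eq ?_)
      ring
  · have hN0 : (0 : ℝ) < N := by exact_mod_cast hN
    have h1 := energy_le p x a (C * (x : ℝ) ^ p / N) (fun n => by
      rw [le_div_iff₀ hN0]
      exact hr n)
    calc (energy p x a : ℝ) * N ≤ (x : ℝ) ^ p * (C * (x : ℝ) ^ p / N) * N :=
          mul_le_mul_of_nonneg_right h1 hN0.le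
      _ = C * ((x : ℝ) ^ p * (x : ℝ) ^ p) := by field_simp
      _ = C * (x : ℝ) ^ (2 * p) := by rw [← pow_add, two_mul]
  · obtain ⟨h', hh, B', C', _, h1⟩ := Pool.Agent.Run7.h504.RM.poly_energy g hd hl D
    exact ⟨h', B', C', fun N x hx1 hx2 => ⟨(h1 N x hx1 hx2).1, h', hh, le_rfl, (h1 N x hx1 hx2).2⟩⟩

end Pool.Agent.Results.MP_4a7640_nt.LowEnergyFamilies
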