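import Pool.Agent.Run7.h20.CE.Joint

/-!
# The values of aperiodic multiplicative functions `±1` along thin sets of shifts are independent signs, at every scale

Let `f` be an aperiodic multiplicative function with values `±1`. For almost all vectors `(s 1, ..., s m)` of members of thin
sets the values `f(n + s 1), ..., f(n + s m)` are independent of each other, of the block `f(n), f(n + 1), ..., f(n + k - 1)` and
of every colouring of the integers by a bounded number of colours. A set is thin if it lies in an interval of length `W`, where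
`W` has to be larger than a CONSTANT only, and if its additive energy of some order `r` is at most a constant times its minimal
value `|S| ^ (2 r) / W`.

From the starting files: the exponential sums of completely multiplicative functions with slowly varying weights
(`Pool.Agent.R512.G.expoS`, for all the frequencies uniformly; from the theorem of Matomaki and Radziwill).
-/

set_option autoImplicit false

namespace Pool.Agent.Results.MP_4a7640_nt.ThinShiftPatterns

open Finset

/-- Multiplicative functions with values `±1` on the positive integers. -/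
def IsMult (f : ℕ → ℤ) : Prop :=
  (∀ n : ℕ, 1 ≤ n → f n = 1 ∨ f n = -1) ∧ ∀ m n : ℕ, 1 ≤ m → 1 ≤ n → Nat.Coprime m n → f (m * n) = f m * f n

/-- The pretentious distance of `f` from every Dirichlet character is infinite. -/
def Aperiodic (f : ℕ → ℤ) : Prop := ∀ (q : ℕ) (χ : DirichletCharacter ℂ q), 1 ≤ q →
  ¬ Summable (fun p : Nat.Primes => (1 - ((f p : ℂ) * (starRingEnd ℂ) (χ ((p : ℕ) : ZMod q))).re) / ((p : ℕ) : ℝ))

/-- The additive energy of order `r` of `S`: the number of pairs `v, w` of vectors of `r` members of `S` with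
`v_1 + ... + v_r = w_1 + ... + w_r`. -/
def energy (r : ℕ) (S : Finset ℕ) : ℕ :=
  (((Fintype.piFinset fun _ : Fin r => S) ×ˢ (Fintype.piFinset fun _ : Fin r => S)).filter
    (fun q => ∑ i, q.1 i = ∑ i, q.2 i)).card

/-- `S` is nonempty and lies in an interval `[a, a + W]` with `W ≥ W₀` and `a + W ≤ D`, and its energy of order `r` is at most
`K |S| ^ (2 r) / W`. -/
def Thin (r : ℕ) (K : ℝ) (W₀ D : ℕ) (S : Finset ℕ) : Prop :=
  S.Nonempty ∧ ∃ a W : ℕ, W₀ ≤ W ∧ a + W ≤ D ∧ (∀ s ∈ S, a ≤ s ∧ s ≤ a + W) ∧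
    (W : ℝ) * energy r S ≤ K * (S.card : ℝ) ^ (2 * r)

open Classical in
/-- The number of `n ≤ y` of the colour `u` for which `f(n), ..., f(n + k - 1)` is the pattern `σ`. -/
noncomputable def blocks {k q : ℕ} (f : ℕ → ℤ) (c : ℕ → Fin q) (u : Fin q) (σ : Fin k → ℤˣ) (y : ℕ) : ℕ :=
  ((Icc 1 y).filter fun n => c n = u ∧ ∀ i : Fin k, f (n + i) = σ i).card

open Classical in
/-- The number of `n ≤ y` of the colour `u` for which `f(n), ..., f(n + k - 1)` is the pattern `σ` and
`f(n + s 1), ..., f(n + s m)` is the pattern `τ`. -/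
noncomputable def continued {k m q : ℕ} (f : ℕ → ℤ) (c : ℕ → Fin q) (u : Fin q) (σ : Fin k → ℤˣ) (s : Fin m → ℕ)
    (τ : Fin m → ℤˣ) (y : ℕ) : ℕ :=
  ((Icc 1 y).filter fun n => c n = u ∧ (∀ i : Fin k, f (n + i) = σ i) ∧ ∀ j, f (n + s j) = τ j).card

open Classical in
/-- Let `f` be an aperiodic multiplicative function with values `±1`. For all `ε > 0`, `K > 0` and all `k`, `m`, `q`, `r`, `B` there
are `W₀` and `X₀` such that for all `X ≥ X₀`, for all sets `S 1, ..., S m` of natural numbers of which each is thin (it lies in an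
interval `[a, a + W]`, `W ≥ W₀`, `a + W ≤ B X`, and has an energy of order `r` of at most `K |S i| ^ (2 r) / W`) and for all
colourings `c` of the integers by `q` colours the following holds for all but at most `ε |S 1| ... |S m|` of the vectors `s` with
`s i ∈ S i`: for all `y ≤ X`, all colours `u` and all patterns `σ`, `τ` the number of `n ≤ y` of colour `u` with
`(f(n), ..., f(n + k - 1)) = σ` and `(f(n + s 1), ..., f(n + s m)) = τ` differs from the number of `n ≤ y` of colour `u` with
`(f(n), ..., f(n + k - 1)) = σ`, divided by `2 ^ m`, by at most `ε X`. -/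
theorem result (f : ℕ → ℤ) (hf : IsMult f) (ha : Aperiodic f) (ε : ℝ) (hε : 0 < ε) (k m q r B : ℕ) (K : ℝ) (hK : 0 < K) :
    ∃ W₀ X₀ : ℕ, ∀ X : ℕ, X₀ ≤ X → ∀ S : Fin m → Finset ℕ, (∀ i, Thin r K W₀ (B * X) (S i)) →
      ∀ c : ℕ → Fin q,
      (((Fintype.piFinset S).filter fun s => ¬ ∀ y ≤ X, ∀ (u : Fin q) (σ : Fin k → ℤˣ) (τ : Fin m → ℤˣ),
        |(continued f c u σ s τ y : ℝ) - blocks f c u σ y / 2 ^ m| ≤ ε * X).card : ℝ) ≤ ε * ∏ i, ((S i).card : ℝ) := by
  obtain ⟨hv, hm⟩ := hf
  have hex := Pool.Agent.Run7.h20.CE.ex_aper f hv hm ha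
  obtain ⟨f', hf'⟩ : ∃ f' : ℕ → ℤ, ∀ n, f' n = if n = 0 then 0 else f n := ⟨_, fun _ => rfl⟩
  have hff : ∀ n, 1 ≤ n → f' n = f n := by
    intro n hn
    rw [hf', if_neg (by omega)]
  have hb : ∀ n, |f' n| ≤ 1 := by
    intro n
    rcases Nat.eq_zero_or_pos n with h | h
    · rw [hf', if_pos h]; simp
    · rw [hff n h]
      rcases hv n h with e | e <;> rw [e] <;> simp
  obtain ⟨W₀, X₀, _, h⟩ := Pool.Agent.Run7.h20.CE.patE f' hb
    (Pool.Agent.Run7.h20.CE.ex_congr f f' (fun n hn => (hff n hn).symm) hex)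
    (fun n hn => by rw [hff n hn]; exact hv n hn) ε hε m (q * 2 ^ k) r B K hK
  refine ⟨W₀, X₀, fun X hX S hS c => ?_⟩
  obtain ⟨E, _, hE1, hE2⟩ := h X hX S hS (Fin q × (Fin k → ℤˣ))
    (fun n => (c n, fun i => if f (n + i) = 1 then 1 else -1)) (by
      rw [Fintype.card_prod, Fintype.card_fin, Fintype.card_fun, Fintype.card_fin]
      simp)
  refine le_trans ?_ hE1
  have hsub : (Fintype.piFinset S).filter (fun s => ¬ ∀ y ≤ X, ∀ (u : Fin q) (σ : Fin k → ℤˣ) (τ : Fin m → ℤˣ),
        |(continued f c u σ s τ y : ℝ) - blocks f c u σ y / 2 ^ m| ≤ ε * X) ⊆ E := by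
    intro s hs
    rw [mem_filter] at hs
    by_contra hcon
    apply hs.2
    intro y hy u σ τ
    have h1 := hE2 s hs.1 hcon y hy (u, σ) τ
    have hiff : ∀ n, 1 ≤ n → (((c n, fun i : Fin k => if f (n + i) = 1 then (1 : ℤˣ) else -1) = (u, σ)) ↔
        (c n = u ∧ ∀ i : Fin k, f (n + i) = σ i)) := by
      intro n hn
      rw [Prod.mk.injEq]
      apply and_congr Iff.rfl
      rw [funext_iff]
      apply forall_congr'
      intro i
      have h2 : f (n + i) = 1 ∨ f (n + i) = -1 := hv _ (by omega)
      rcases h2 with e | e <;> rcases Int.units_eq_one_or (σ i) with e' | e' <;> rw [e, e'] <;> simp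
    have e1 : (continued f c u σ s τ y : ℝ) = (((Icc 1 y).filter (fun n =>
        (c n, fun i : Fin k => if f (n + i) = 1 then (1 : ℤˣ) else -1) = (u, σ) ∧ ∀ j, f' (n + s j) = τ j)).card : ℝ) := by
      unfold continued
      congr 2
      apply filter_congr
      intro n hn
      have hn1 := (mem_Icc.1 hn).1
      rw [hiff n hn1, and_assoc]
      have e3 : ∀ j, f' (n + s j) = f (n + s j) := fun j => hff _ (by omega)
      simp only [e3]
    have e2 : (blocks f c u σ y : ℝ) = (((Icc 1 y).filter (fun n =>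
        (c n, fun i : Fin k => if f (n + i) = 1 then (1 : ℤˣ) else -1) = (u, σ))).card : ℝ) := by
      unfold blocks
      congr 2
      apply filter_congr
      intro n hn
      rw [hiff n (mem_Icc.1 hn).1]
    rw [e1, e2]
    convert h1 using 6
  exact_mod_cast card_le_card hsub

end Pool.Agent.Results.MP_4a7640_nt.ThinShiftPatterns
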